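import Pool.Agent.MP_eed7cf_an.Mg.H42_Up

/-!
Spaces of vector-valued functions that are isomorphic to the disc algebra.
-/

set_option autoImplicit false

namespace Pool.Agent.MP_eed7cf_an.H72

open Filter Topology Set H71 H42 ZeroAtInfty

noncomputable section

section Prod

open Ordinal

variable {K : Type*} [TopologicalSpace K] [CompactSpace K] [T2Space K]

theorem loc_rank {F : Set K} {γ : Ordinal.{0}} {x : K} (hx : x ∈ F) (h : x ∉ cb F γ) :
    ∃ ξ < γ, ∃ U ∈ 𝓝 x, IsClosed U ∧ cb (F ∩ U) ξ ⊆ {x} := by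
  obtain ⟨ξ, h1, -, h2⟩ := exists_rank (d := derivedSet) hx h
  rw [mem_derivedSet, accPt_iff_nhds] at h2
  push Not at h2
  obtain ⟨V, hV, h2⟩ := h2
  obtain ⟨U, h3, h4, h5⟩ := exists_mem_nhds_isClosed_subset hV
  exact ⟨ξ, h1, U, h3, h4, fun y hy =>
    h2 y ⟨h5 (it_sub hy).2, it_mono der_mono inter_subset_left hy⟩⟩

theorem single_van {Y : Type*} [TopologicalSpace Y] [T1Space Y] {F : Set Y} {ξ : Ordinal.{0}}
    {x : Y} (h : cb F ξ ⊆ {x}) : cb F (ξ + 1) = ∅ :=
  eq_empty_of_forall_notMem fun _ hy =>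
    (Set.Infinite.of_accPt (der_mono h ((mem_it.1 hy).2 ξ (lt_add_one ξ)))) (finite_singleton _)

omit [CompactSpace K] in
theorem prod_fin {γ : Ordinal.{0}}
    (h : ∀ F G : Set K, IsClosed F → IsClosed G →
      cb (F ×ˢ G) γ ⊆ cb F γ ×ˢ G ∪ F ×ˢ cb G γ) (n : ℕ) :
    ∀ (k l : ℕ) (F G : Set K), k + l = n → IsClosed F → IsClosed G → cb F (γ * k) = ∅ →
      cb G (γ * l) = ∅ → cb (F ×ˢ G) (γ * n) = ∅ := by
  have sp : ∀ {Y : Type _} [TopologicalSpace Y] (F : Set Y) (k : ℕ),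
      cb F (γ * (k + 1 : ℕ)) = cb (cb F γ) (γ * k) := fun F k => by
    rw [add_comm, Nat.cast_add, Nat.cast_one, mul_add, mul_one, cb, it_add]
  induction n with
  | zero =>
    intro k l F G e _ _ h1 _
    obtain rfl : k = 0 := by omega
    rw [Nat.cast_zero, mul_zero, cb, it_zero] at h1 ⊢
    rw [h1, empty_prod]
  | succ n ih =>
    intro k l F G e hF hG h1 h2
    rcases k with _ | k
    · rw [Nat.cast_zero, mul_zero, cb, it_zero] at h1
      exact eq_empty_of_subset_empty (it_sub.trans (by rw [h1, empty_prod]))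
    rcases l with _ | l
    · rw [Nat.cast_zero, mul_zero, cb, it_zero] at h2
      exact eq_empty_of_subset_empty (it_sub.trans (by rw [h2, prod_empty]))
    rw [sp]
    refine eq_empty_of_subset_empty ((it_mono der_mono (h F G hF hG)).trans
      ((cb_union ((cb_closed hF).prod hG) (hF.prod (cb_closed hG)) _).trans ?_))
    rw [ih k (l + 1) _ _ (by omega) (cb_closed hF) hG (sp F k ▸ h1) h2,
      ih (k + 1) l _ _ (by omega) hF (cb_closed hG) h1 (sp G l ▸ h2), union_empty]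

theorem prod_key (α : Ordinal.{0}) : ∀ F G : Set K, IsClosed F → IsClosed G →
    cb (F ×ˢ G) (ω ^ α) ⊆ cb F (ω ^ α) ×ˢ G ∪ F ×ˢ cb G (ω ^ α) := by
  induction α using WellFoundedLT.induction with
  | ind α ih =>
    rintro F G hF hG ⟨x, y⟩ hp
    obtain ⟨hx, hy⟩ := mem_prod.1 (it_sub hp)
    by_contra hc
    obtain ⟨ξ, h1, U, hU, cU, h2⟩ := loc_rank hx fun h => hc (.inl ⟨h, hy⟩)
    obtain ⟨ζ, h3, V, hV, cV, h4⟩ := loc_rank hy fun h => hc (.inr ⟨hx, h⟩)
    have h5 : (x, y) ∈ cb ((F ∩ U) ×ˢ (G ∩ V)) (ω ^ α) :=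
      it_loc (S := F ×ˢ G) (S' := (F ∩ U) ×ˢ (G ∩ V)) (O := interior (U ×ˢ V)) der_mono (fun A z hz => by
          refine accPt_iff_nhds.2 fun W hW => ?_
          obtain ⟨w, ⟨a, b⟩, c⟩ := accPt_iff_nhds.1 hz.1 _
            (inter_mem hW (isOpen_interior.mem_nhds hz.2))
          exact ⟨w, ⟨a.1, b, a.2⟩, c⟩)
        (fun z hz => mem_prod.2
          ⟨⟨hz.1.1, (interior_subset hz.2).1⟩, hz.1.2, (interior_subset hz.2).2⟩) _
        ⟨hp, mem_interior_iff_mem_nhds.2 (prod_mem_nhds hU hV)⟩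
    rcases eq_or_ne α 0 with rfl | h0
    · rw [opow_zero, Order.lt_one_iff] at h1 h3
      rw [h1, cb, it_zero] at h2
      rw [h3, cb, it_zero] at h4
      have h6 := single_van (F := (F ∩ U) ×ˢ (G ∩ V)) (ξ := 0) (x := (x, y)) (by
        rw [cb, it_zero]
        exact fun z hz => Prod.ext (h2 hz.1) (h4 hz.2))
      rw [opow_zero] at h5
      rw [zero_add] at h6
      exact (eq_empty_iff_forall_notMem.1 h6) _ h5
    · have l := isSuccLimit_opow_left isSuccLimit_omega0 h0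
      obtain ⟨β, hβ, k, hk⟩ := (lt_omega0_opow h0).1 (max_lt (l.add_one_lt h1) (l.add_one_lt h3))
      have h6 := prod_fin (ih β hβ) (k + k) k k _ _ rfl (hF.inter cU) (hG.inter cV)
        (it_empty (single_van h2) ((le_max_left _ _).trans hk.le))
        (it_empty (single_van h4) ((le_max_right _ _).trans hk.le))
      exact (eq_empty_iff_forall_notMem.1
        (it_empty h6 (opow_mul_lt_opow (natCast_lt_omega0 _) hβ).le)) _ h5

theorem prod_van {α ξ : Ordinal.{0}} (h0 : α ≠ 0) (h1 : ξ < ω ^ α) (h : cb (univ : Set K) ξ = ∅) :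
    ∃ ζ < ω ^ α, cb (univ : Set (K × K)) ζ = ∅ := by
  obtain ⟨β, hβ, k, hk⟩ := (lt_omega0_opow h0).1 h1
  refine ⟨_, opow_mul_lt_opow (natCast_lt_omega0 (k + k)) hβ, ?_⟩
  rw [← univ_prod_univ]
  exact prod_fin (prod_key β) (k + k) k k _ _ rfl isClosed_univ isClosed_univ (it_empty h hk.le)
    (it_empty h hk.le)

end Prod

variable {X Y : Type*} [NormedAddCommGroup X] [NormedSpace ℂ X] [NormedAddCommGroup Y]
  [NormedSpace ℂ Y] {K : Type*} [TopologicalSpace K] [CompactSpace K]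

theorem cp_mapC (h : Cp X Y) : Cp C(K, X) C(K, Y) := by
  obtain ⟨J, R, h⟩ := h
  exact ⟨J.compLeftContinuous ℂ K, R.compLeftContinuous ℂ K,
    fun f => ContinuousMap.ext fun y => h (f y)⟩

theorem cp_map0 (h : Cp X Y) : Cp C₀(ℕ, X) C₀(ℕ, Y) := by
  obtain ⟨J, R, h⟩ := h
  exact ⟨c0map J, c0map R, fun f => ZeroAtInftyContinuousMap.ext fun y => h (f y)⟩

theorem cp_curry [T2Space K] : Cp C(K, C(K, X)) C(K × K, X) :=
  ⟨toC (fun p => ContinuousMap.evalCLM ℂ p.2 ∘L ContinuousMap.evalCLM ℂ p.1) 1 zero_le_one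
      (fun p f => (((f p.1).norm_coe_le_norm p.2).trans (f.norm_coe_le_norm p.1)).trans_eq
        (one_mul _).symm) fun f => f.uncurry.continuous,
    toC (fun y => cmp (p := fun z => (y, z)) (by fun_prop)) 1 zero_le_one
      (fun y g => ((ContinuousMap.norm_le _ (norm_nonneg g)).2 fun z =>
        g.norm_coe_le_norm (y, z)).trans_eq (one_mul _).symm) fun g => g.curry.continuous,
    fun _ => rfl⟩

variable {S : Type*} [TopologicalSpace S] [T2Space S] [LocallyCompactSpace S] [Nonempty S]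

open Ordinal in
theorem cp_square [CompleteSpace X] [SecondCountableTopology S] :
    Cp C(OnePoint S × OnePoint S, X) C₀(ℕ, C₀(S, X)) := by
  have := sc_onePoint (T := S)
  by_cases hS : Countable S
  · obtain ⟨γ, h1, h2⟩ := (wellFounded_lt (α := Ordinal.{0})).has_min _ (scattered (X := S))
    have h3 : γ ≠ 0 := by
      rintro rfl
      exact Set.univ_nonempty.ne_empty (it_zero.symm.trans h1)
    have h0 : Order.succ (log ω γ) ≠ 0 := (Order.bot_lt_succ _).ne'
    obtain ⟨ξ, h4, h5⟩ := prod_van h0 ((isSuccLimit_opow_left isSuccLimit_omega0 h0).add_one_lt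
      (lt_opow_succ_log_self one_lt_omega0 γ)) (cb_onePoint h1)
    obtain ⟨k, hk⟩ := lt_omega0_opow_succ.1 h4
    have : Countable (OnePoint S) := inferInstanceAs (Countable (Option S))
    obtain ⟨J, R, h6⟩ := fac_all (X := X) (fun ξ hξ => nonempty_iff_ne_empty.2 fun h => h2 ξ h hξ) k
      _ isClosed_univ (it_empty h5 (hk.le.trans (mul_le_mul_left (opow_log_le_self _ h3) _)))
    exact ⟨J, R, fun f => ContinuousMap.ext fun z => h6 f z trivial⟩
  · exact (cp_cantor.trans (cantor_cp hS)).trans compl_in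

/-- the identity factors through one term of a finite sum -/
theorem fac_sum (T : ℕ → DA →L[ℂ] DA) (n : ℕ) : ∀ J R : DA →L[ℂ] DA,
    (∀ f, R ((∑ k ∈ Finset.range n, T k) (J f)) = f) →
      ∃ k, ∃ J R : DA →L[ℂ] DA, ∀ f, R (T k (J f)) = f := by
  induction n with
  | zero =>
    intro J R h
    exact ⟨0, 0, 0, fun f => by simpa using h f⟩
  | succ n ih =>
    intro J R h
    rcases fac (R ∘L T n ∘L J) with ⟨J', R', h'⟩ | ⟨J', R', h'⟩
    · exact ⟨n, J ∘L J', R' ∘L R, h'⟩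
    · refine ih (J ∘L J') (R' ∘L R) fun f => Eq.trans ?_ (h' f)
      have h1 := h (J' f)
      rw [Finset.sum_range_succ, add_apply, map_add] at h1
      exact congrArg R' (eq_sub_of_add_eq h1)

/-- the inclusion of a coordinate -/
def inc (k : ℕ) : X →L[ℂ] C₀(ℕ, X) :=
  toC0 (fun n => if n = k then ContinuousLinearMap.id ℂ X else 0) 1
    (fun n x => by split_ifs <;> simp) fun x => tendsto_const_nhds.congr' (by
      filter_upwards [eventually_gt_atTop k] with n hn
      simp [hn.ne'])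

theorem inc_apply (k n : ℕ) (x : X) : inc k x n = if n = k then x else 0 := by
  change (if n = k then ContinuousLinearMap.id ℂ X else 0) x = _
  split_ifs <;> rfl

theorem sum_inc (s : Finset ℕ) (v : ℕ → X) (n : ℕ) :
    (∑ k ∈ s, inc k (v k)) n = if n ∈ s then v n else 0 := by
  change ev n (∑ k ∈ s, inc k (v k)) = _
  simp only [map_sum, ev_apply, inc_apply, Finset.sum_ite_eq]

/-- a functional on a sum is small on the tails -/
theorem tail_small (l : C₀(ℕ, X) →L[ℂ] ℂ) {ε : ℝ} (ε0 : 0 < ε) :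
    ∃ n, ∀ x : C₀(ℕ, X), (∀ k < n, x k = 0) → ‖l x‖ ≤ ε * ‖x‖ := by
  by_contra H
  push Not at H
  have hG : ∀ m : ℕ, ∃ (N : ℕ) (G : C₀(ℕ, X)), (∀ k, N ≤ k → G k = 0) ∧ ‖G‖ ≤ 1 ∧
      m * ε ≤ (l G).re := by
    intro m
    induction m with
    | zero => exact ⟨0, 0, fun _ _ => rfl, by simp, by simp⟩
    | succ m ih =>
      obtain ⟨N, G, G0, G1, Gl⟩ := ih
      obtain ⟨x, x0, hx⟩ := H N
      have xp : 0 < ‖x‖ := norm_pos_iff.2 fun e => by simp [e] at hx
      have t : Tendsto (fun M => ∑ k ∈ Finset.range M, inc k (x k)) atTop (𝓝 x) :=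
        c0_lim (tendsto_zero_iff_norm_tendsto_zero.1 (c0_tendsto x))
          (fun M n => by rw [sum_inc]; split_ifs <;> simp) fun n =>
            tendsto_const_nhds.congr' (by
              filter_upwards [eventually_gt_atTop n] with M hM
              rw [sum_inc, if_pos (Finset.mem_range.2 hM)])
      obtain ⟨M, hM⟩ := (((l.continuous.tendsto x).comp t).norm.eventually_const_lt hx).exists
      set y := ∑ k ∈ Finset.range M, inc k (x k)
      obtain ⟨a, a1, ha⟩ := Complex.exists_norm_eq_mul_self (l y)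
      have e : ∀ k, (G + (((‖x‖⁻¹ : ℝ) : ℂ) * a) • y) k =
          G k + (((‖x‖⁻¹ : ℝ) : ℂ) * a) • if k ∈ Finset.range M then x k else 0 := fun k => by
        rw [← sum_inc]; rfl
      refine ⟨max N M, G + (((‖x‖⁻¹ : ℝ) : ℂ) * a) • y, fun k hk => ?_, c0_norm_le fun k => ?_, ?_⟩
      · rw [e, G0 k ((le_max_left _ _).trans hk),
          if_neg fun h => (Finset.mem_range.1 h).not_ge ((le_max_right _ _).trans hk), smul_zero,
          add_zero]
      · rw [e]
        rcases lt_or_ge k N with h | h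
        · rw [x0 k h, ite_self, smul_zero, add_zero]
          exact (c0_apply_le G k).trans G1
        · rw [G0 k h, zero_add, norm_smul, norm_mul, a1, mul_one, Complex.norm_real,
            Real.norm_of_nonneg (by positivity), inv_mul_le_iff₀ xp, mul_one]
          split_ifs
          · exact c0_apply_le x k
          · simp
      · rw [map_add, map_smul, smul_eq_mul, mul_assoc, ← ha, ← Complex.ofReal_mul, Complex.add_re,
          Complex.ofReal_re]
        have h : ε ≤ ‖x‖⁻¹ * ‖l y‖ := by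
          rw [le_inv_mul_iff₀ xp, mul_comm]
          exact hM.le
        push_cast
        linarith only [Gl, h]
  obtain ⟨m, hm⟩ := exists_nat_gt (‖l‖ / ε)
  obtain ⟨-, G, -, G1, Gl⟩ := hG m
  rw [div_lt_iff₀ ε0] at hm
  linarith [(Complex.re_le_norm _).trans (l.le_of_opNorm_le_of_le le_rfl G1)]

/-- a copy of the disc algebra complemented in a sum gives one in the summand -/
theorem cp_of_sum (h : Cp DA C₀(ℕ, X)) : Cp DA X := by
  obtain ⟨J, R, h⟩ := h
  have hT : ∀ t : Metric.sphere (0 : ℂ) 1, ‖(t : ℂ)‖ = 1 := fun t => mem_sphere_zero_iff_norm.1 t.2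
  have : Nonempty (Metric.sphere (0 : ℂ) 1) := ⟨⟨1, by simp⟩⟩
  have ε0 : 0 < (2 * (‖J‖ + 1))⁻¹ := by positivity
  set ε := (2 * (‖J‖ + 1))⁻¹ with hε
  obtain ⟨n, t, ht⟩ := nonempty_interior_of_iUnion_of_closed
    (f := fun n : ℕ => ⋂ x : C₀(ℕ, X), ⋂ _ : ∀ k < n, x k = 0,
      {t : Metric.sphere (0 : ℂ) 1 | ‖E t (R x)‖ ≤ ε * ‖x‖})
    (fun n => isClosed_iInter fun x => isClosed_iInter fun _ => isClosed_le
      (E_cont2 continuous_subtype_val (fun t => (hT t).le) continuous_const).norm continuous_const)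
    (eq_univ_of_forall fun t => by
      obtain ⟨n, hn⟩ := tail_small (E t ∘L R) ε0
      exact mem_iUnion.2 ⟨n, mem_iInter₂.2 hn⟩)
  obtain ⟨r, r0, hr⟩ := Metric.eventually_nhds_iff.1 (mem_interior_iff_mem_nhds.1 ht)
  obtain ⟨J1, R1, h1⟩ := fac_of (∑ k ∈ Finset.range n, R ∘L inc k ∘L ev k ∘L J) (d := 1)
    (c := 1 / 2) (hT t) r0 (by norm_num) (by norm_num) fun z hz hzr f => by
      have h2 := mem_iInter₂.1 (hr (y := ⟨z, mem_sphere_zero_iff_norm.2 hz⟩)
        (by rwa [Subtype.dist_eq, dist_eq_norm])) (J f - ∑ k ∈ Finset.range n, inc k (J f k))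
        fun k hk => by
          change J f k - (∑ k ∈ Finset.range n, inc k (J f k)) k = 0
          rw [sum_inc, if_pos (Finset.mem_range.2 hk), sub_self]
      have h3 : ‖J f - ∑ k ∈ Finset.range n, inc k (J f k)‖ ≤ (‖J‖ + 1) * ‖f‖ :=
        c0_norm_le fun k => by
          change ‖J f k - (∑ k ∈ Finset.range n, inc k (J f k)) k‖ ≤ _
          rw [sum_inc]
          split_ifs
          · rw [sub_self, norm_zero]; positivity
          · rw [sub_zero]
            linarith only [c0_apply_le (J f) k, J.le_opNorm f, norm_nonneg f]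
      have h4 : (∑ k ∈ Finset.range n, R ∘L inc k ∘L ev k ∘L J) f =
          R (∑ k ∈ Finset.range n, inc k (J f k)) := by
        rw [sum_apply, map_sum]; rfl
      have h5 : ε * ((‖J‖ + 1) * ‖f‖) = 1 / 2 * ‖f‖ := by
        rw [← mul_assoc, hε, mul_inv, mul_assoc _ _ (‖J‖ + 1), inv_mul_cancel₀ (by positivity),
          mul_one, one_div]
      rw [mem_ofPred_eq, map_sub, h, map_sub] at h2
      rw [h4, one_mul, norm_sub_rev, ← h5]
      exact h2.trans (mul_le_mul_of_nonneg_left h3 ε0.le)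
  obtain ⟨k, J2, R2, h2⟩ := fac_sum _ n J1 R1 h1
  exact ⟨ev k ∘L J ∘L J2, R2 ∘L R ∘L inc k, h2⟩

theorem main [CompleteSpace X] : Nonempty (C₀(S, X) ≃L[ℂ] DA) ↔
    Nonempty (X ≃L[ℂ] DA) ∧ Countable S ∧ ∃ n, derivedSet^[n] (univ : Set S) = ∅ := by
  obtain ⟨D⟩ := model
  have hA : Cp C₀(ℕ, DA) DA := sum_compl
  constructor
  · rintro ⟨e⟩
    have c1 : Cp C₀(S, X) DA := ⟨e, e.symm, e.symm_apply_apply⟩
    have c2 : Cp DA C₀(S, X) := ⟨e.symm, e, e.apply_symm_apply⟩
    have := e.toHomeomorph.isEmbedding.secondCountableTopology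
    obtain ⟨f, hf⟩ : ∃ f : X, 1 ≤ ‖f‖ := by
      by_cases h : ∃ x : X, x ≠ 0
      · obtain ⟨x, hx⟩ := h
        exact ⟨((‖x‖⁻¹ : ℝ) : ℂ) • x, by
          rw [norm_smul, Complex.norm_real, norm_inv, norm_norm,
            inv_mul_cancel₀ (norm_ne_zero_iff.2 hx)]⟩
      · push Not at h
        have h1 : e.symm D.z = 0 := ZeroAtInftyContinuousMap.ext fun y => h _
        have h2 := (D.z_norm 0).ge.trans (D.b_le D.z 0)
        rw [← e.apply_symm_apply D.z, h1, map_zero, norm_zero] at h2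
        linarith
    have := sc_of_sep (T := S) hf
    obtain ⟨J, R, h⟩ : Cp C₀(S, DA) DA :=
      cp_onePoint.trans ((cp_mapC (c2.trans cp_onePoint)).trans
        (cp_curry.trans (cp_square.trans ((cp_map0 c1).trans hA))))
    obtain ⟨n, hn⟩ := D.height (fn0 S DA) J R h
    have := (fn0 S X).countable hf hn
    obtain ⟨a⟩ := hA.iso (cp_of_sum (c2.trans (compl_c0 hn))) (Cp.trans compl_in c1)
    exact ⟨⟨a.symm⟩, this, n, hn⟩
  · rintro ⟨⟨a⟩, _, n, hn⟩
    have c1 : Cp X DA := ⟨a, a.symm, a.symm_apply_apply⟩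
    have c2 : Cp DA X := ⟨a.symm, a, a.apply_symm_apply⟩
    obtain ⟨J, R, h⟩ := (cp_map0 c1).trans (hA.trans c2)
    obtain ⟨u⟩ := iso_of_height hn h
    exact ⟨u.trans a⟩

end

end Pool.Agent.MP_eed7cf_an.H72
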